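import Pool.Agent.W_MP_10444e_gt.Backward
import Pool.Agent.W_MP_10444e_gt.CH2

set_option autoImplicit false

namespace Pool.Agent.Results.MP_10444e_gt.FinitePowers

open Pool.Agent.W_MP_10444e_gt

/-- `S_fin(O, O)` (Menger) for a subspace `S` of `T`. -/
def Menger {T : Type} [TopologicalSpace T] (S : Set T) : Prop :=
  ∀ U : ℕ → Set (Set T), (∀ n, ∀ u ∈ U n, IsOpen u) → (∀ n, S ⊆ ⋃₀ U n) →
    ∃ F : ℕ → Finset (Set T), (∀ n, (↑(F n) : Set (Set T)) ⊆ U n) ∧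
      S ⊆ ⋃ n, ⋃₀ (↑(F n) : Set (Set T))

/-- `U_fin(O, Ω)` for a subspace `S` of `T`, in the form used by the frozen statements. -/
def UfinOOmega {T : Type} [TopologicalSpace T] (S : Set T) : Prop :=
  ∀ U : ℕ → Set (Set T), (∀ n, ∀ u ∈ U n, IsOpen u) → (∀ n, S ⊆ ⋃₀ U n) →
    ∃ F : ℕ → Finset (Set T), (∀ n, (↑(F n) : Set (Set T)) ⊆ U n) ∧
      ∀ A : Finset T, (↑A : Set T) ⊆ S → ∃ n, (↑A : Set T) ⊆ ⋃₀ (↑(F n) : Set (Set T))

/-- The functions eventually dominated by the pointwise maximum of some nonempty finite family of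
elements of `Y`. -/
def closureG (Y : Set (ℕ → ℕ)) : Set (ℕ → ℕ) :=
  {g | ∃ F : Finset (ℕ → ℕ), F.Nonempty ∧ (↑F : Set (ℕ → ℕ)) ⊆ Y ∧
    ∀ᶠ m in Filter.atTop, g m ≤ F.sup (fun h => h m)}

lemma menger_iff {T : Type} [TopologicalSpace T] (S : Set T) : Menger S ↔ Sel S (small S) := by
  constructor
  · intro h U hU1 hU2
    obtain ⟨F, hF1, hF2⟩ := h U hU1 hU2
    refine ⟨F, hF1, ?_⟩
    rintro A ⟨hAS, hA⟩
    rcases A.eq_empty_or_nonempty with rfl | ⟨x, hx⟩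
    · exact ⟨0, Set.empty_subset _⟩
    · obtain ⟨n, hn⟩ := Set.mem_iUnion.1 (hF2 (hAS hx))
      refine ⟨n, fun y hy => ?_⟩
      rw [hA hy hx]
      exact hn
  · intro h U hU1 hU2
    obtain ⟨F, hF1, hF2⟩ := h U hU1 hU2
    refine ⟨F, hF1, fun x hx => ?_⟩
    obtain ⟨n, hn⟩ := hF2 {x} ⟨Set.singleton_subset_iff.2 hx, Set.subsingleton_singleton⟩
    exact Set.mem_iUnion.2 ⟨n, hn rfl⟩

lemma ufin_iff {T : Type} [TopologicalSpace T] (S : Set T) : UfinOOmega S ↔ Sel S (fin S) := by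
  constructor
  · intro h U hU1 hU2
    obtain ⟨F, hF1, hF2⟩ := h U hU1 hU2
    refine ⟨F, hF1, ?_⟩
    rintro A ⟨hAS, hA⟩
    obtain ⟨n, hn⟩ := hF2 hA.toFinset (by simpa using hAS)
    exact ⟨n, by simpa using hn⟩
  · intro h U hU1 hU2
    obtain ⟨F, hF1, hF2⟩ := h U hU1 hU2
    refine ⟨F, hF1, fun A hA => ?_⟩
    exact hF2 A ⟨hA, A.finite_toSet⟩

lemma UfinOOmega.menger {T : Type} [TopologicalSpace T] {S : Set T} (h : UfinOOmega S) :
    Menger S := by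
  rw [menger_iff]
  rw [ufin_iff] at h
  intro U hU1 hU2
  obtain ⟨F, hF1, hF2⟩ := h U hU1 hU2
  exact ⟨F, hF1, fun A hA => hF2 A ⟨hA.1, hA.2.finite⟩⟩

lemma tfae (X : Set ℝ) : List.TFAE [
    ∀ f : ℝ → (ℕ → ℕ), ContinuousOn f X → UfinOOmega (closureG (f '' X)),
    ∀ f : ℝ → (ℕ → ℕ), ContinuousOn f X → Menger (closureG (f '' X)),
    ∀ k : ℕ, Menger {x : Fin k → ℝ | ∀ i, x i ∈ X}] := by
  tfae_have 1 → 2 := fun h f hf => (h f hf).menger
  tfae_have 2 → 3 := by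
    intro h k
    rw [menger_iff]
    exact backward (X := X) (fun f hf => (menger_iff _).1 (h f hf)) k
  tfae_have 3 → 1 := by
    intro h f hf
    rw [ufin_iff]
    exact forward (X := X) (fun k => (menger_iff _).1 (h k)) hf
  tfae_finish

/-- For every set of reals `X`: all sets `G(Ψ[X])` have `U_fin(O, Ω)` iff all of them are Menger
iff all finite powers of `X` are Menger. So Q1 is equivalent to: all finite powers of every set of
reals with `U_fin(O, Ω)` are Menger. Under the continuum hypothesis the answer to Q1 is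
negative. -/
theorem result :
    (∀ X : Set ℝ, List.TFAE [
      ∀ f : ℝ → (ℕ → ℕ), ContinuousOn f X → UfinOOmega (closureG (f '' X)),
      ∀ f : ℝ → (ℕ → ℕ), ContinuousOn f X → Menger (closureG (f '' X)),
      ∀ k : ℕ, Menger {x : Fin k → ℝ | ∀ i, x i ∈ X}]) ∧
    ((∀ X : Set ℝ, UfinOOmega X → ∀ f : ℝ → (ℕ → ℕ), ContinuousOn f X →
        UfinOOmega (closureG (f '' X))) ↔
      ∀ X : Set ℝ, UfinOOmega X → ∀ k : ℕ, Menger {x : Fin k → ℝ | ∀ i, x i ∈ X}) ∧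
    (Cardinal.continuum.{0} = Cardinal.aleph 1 →
      ∃ X : Set ℝ, UfinOOmega X ∧ ∃ f : ℝ → (ℕ → ℕ), ContinuousOn f X ∧
        ¬ UfinOOmega (closureG (f '' X))) := by
  refine ⟨tfae, ⟨fun h X hX => ((tfae X).out 0 2).1 (h X hX),
    fun h X hX => ((tfae X).out 0 2).2 (h X hX)⟩, fun hCH => ?_⟩
  obtain ⟨S, hS1, hS2⟩ := exists_ch_set hCH
  refine ⟨S, (ufin_iff S).2 hS1, ?_⟩
  by_contra hcon
  push Not at hcon
  have h3 := ((tfae S).out 0 2).1 hcon
  exact hS2 ((menger_iff _).1 (h3 2))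

end Pool.Agent.Results.MP_10444e_gt.FinitePowers
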