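import Pool.Agent.W_10444e_h88.Fail

/-!
# A model of ZFC in which the negated form of Q1 holds (problem MP_10444e_gt)

`Fml`, `Fml.Sat`, `IsZFC` (first-order formulas, satisfaction, models of ZFC) are defined in
`Pool.Agent.W_MP_0bf392_lc.Defs`, the general set-theoretic notions of a structure `(M, E)` in
`Pool.Agent.W_8dd142_h88.Defs`, the selection principles of a structure in
`Pool.Agent.W_10444e_h88.Defs`. The model is the quotient of the Boolean-valued universe over the
regular open algebra of a countably closed preorder (countable approximations of a Sierpinski type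
subset of the Cantor group) by an arbitrary ultrafilter.
-/

namespace Pool.Agent.Results.MP_10444e_gt.ModelCounterexample

open IM TKF BVM GTF

/-- There is a model `(M, E)` of ZFC with a subset `Y` of its Baire space `R` such that `Y` has the
property `U_fin(O, Ω)` and the set `G` of all functions which are eventually dominated by the
pointwise maximum of a finite subset of `Y` does not have the property `U_fin(O, Ω)`; `G` is not
even Menger. All notions are those of the model. -/
theorem result : ∃ (M : Type 1) (E : M → M → Prop), IsZFC E ∧
    ∃ w R Y G, IsOmega E w ∧ IsBaire E w R ∧ Sub E Y R ∧ UfinOmega E w R Y ∧ IsG E w R Y G ∧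
      ¬ UfinOmega E w R G ∧ ¬ Menger E w R G := by
  obtain ⟨lam, hl, _⟩ := exists_uf C2.triv
  obtain ⟨G, hG⟩ := exists_G hl
  exact ⟨X hl, E hl, isZFC hl, val hl (omB _), val hl (nall fn), val hl nY, G, isOmega_omB,
    isBaire_nall c2_sigma hl, Y_sub, ufin_Y hl, hG, not_ufin hl hG, not_menger hl hG⟩

end Pool.Agent.Results.MP_10444e_gt.ModelCounterexample
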